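import Mathlib
import Pool.Agent.K4H21.TF.MainI
import Pool.Agent.K4H21.TF.QuadI
import Pool.Agent.K4H21.TF.OneJ

/-!
# The Tate conjecture for abelian varieties over finite fields: the exact reach of the theorems of
Tate and Markman

Over an algebraic closure of the field with `p` elements each abelian variety is isogenous to the
reduction of an abelian variety of CM type (Honda, Tate). So an abelian variety over the field with
`q = p ^ a` elements is modelled by a finite product of CM types `(E i, Φ i)` with Weil numbers
`π i ∈ E i` that satisfy the formula of Shimura and Taniyama (`RedAV`); its first homology, with
coefficients in an algebraically closed field `Ω` (`ℓ`-adic homology, tensored with an algebraic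
closure of `ℚ_ℓ`), is `Ω ⊗ ∏ E i`, on which the Frobenius endomorphism acts by `π`. The Frobenius
eigenvalues of `Z` are the numbers `eig Z w = φ (π i)`, for the pairs `w = (i, φ)` of a factor and an
embedding `φ` of `E i` (`Emb Z`). There is no condition on the dimension and on the Newton polygons.

Let `Alg` be the smallest system of cohomology classes on abelian varieties over finite fields which
contains the classes of degree zero, the Tate classes of degree two (algebraic by Tate) and the
reductions of the split Weil classes of imaginary quadratic fields on abelian fourfolds and sixfolds
of CM type (algebraic by Markman), and which is stable under linear combinations, cup products,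
pull-backs along linear combinations of homomorphisms (by Tate these are the linear maps which commute
with a power of the Frobenius endomorphism) and push-forwards along projections. So all classes in
`Alg` are algebraic. `AllTate Ω Z` says that all Tate classes, over all finite extensions of the ground field
and in all degrees, on all products of powers of the factors of `Z` are in `Alg`; in particular the
Tate conjecture is true for all powers of `Z`.

A relation is a family `e` of integers, indexed by the eigenvalues `α`, with even sum `2 m`, such that
`∏ α ^ e(α) = q ^ m` up to a root of unity (`IsRelation`). Let `Gen Z` be the subgroup, of the free
abelian group on the eigenvalues, with the following generators.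

* `[α] + [α']` if `α α' = q` up to a root of unity; `[α]` if `α ^ 2 = q` up to a root of unity.
* `∑ [θ φ]`, the sum over the embeddings `φ` with `φ δ = z` of the field `E` of a CM type `(E, Φ)` with
  an element `δ = √-d`, `d > 0`, such that at most three elements of `Φ` map `δ` to `√-d`, and at most
  three to `-√-d`, where `θ φ` is an eigenvalue of `Z` with the valuations which belong to `(E, Φ)` and
  `φ` by the formula of Shimura and Taniyama. (So the dimension of the abelian variety `A` of CM type
  `(E, Φ)` is at most six, and the reduction of `A` is, over an algebraic closure, isogenous to a power
  of a simple factor of `Z`. The generator is not always a relation: it is one if `dim A` is even and `p`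
  does not split in `ℚ(δ)`, or if both multiplicities are equal.)

The theorem has three parts.

1. **The exact reach.** `AllTate Ω Z` if and only if all relations between the Frobenius eigenvalues of
   `Z` are in `Gen Z`.
2. **A numerical criterion.** Let `W 1, ..., W r` be such CM types with `δ i = √-d_i` for which the
   eigenvalues `θ φ` are different up to roots of unity, for different `φ` and for different `i`
   (`QuadDatum`: the reductions are geometrically simple with commutative endomorphism algebras and
   pairwise not isogenous over an algebraic closure). Let `s` be the number of the different rational
   numbers `d_i` (not of the fields; one can rescale `δ i`) for which `p` splits in `ℚ(√-d_i)` and the two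
   multiplicities are different for some `i` with this `d_i` (`Unbalanced`). Let
   `2 g'` be the number of the Frobenius eigenvalues up to roots of unity, without the supersingular
   ones (`numEig`). If the angle rank of `Z` is at least `g' - r + s` then `AllTate Ω Z`. There is no bound
   on `r` and `g'`.
3. **Geometrically simple abelian varieties.** Let `B` be geometrically simple, not supersingular, and
   `Z` the product of a power of `B` with an action of a CM field of maximal degree, and of
   supersingular abelian varieties, at least one (not necessary if `B` is ordinary). Then `2 g'` is the
   degree of the centre of the endomorphism algebra of `B` over an algebraic closure, and `AllTate Ω Z`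
   if and only if the angle rank is `g'`, or the angle rank is `g' - 1` and there is one `W` as in part
   2 which is not unbalanced. (Remark: then the endomorphism algebra of `B` is commutative,
   `g' = dim B ≤ 6`, and `B` is isogenous, over an algebraic closure, to the reduction of an abelian
   variety with complex multiplication on which an imaginary quadratic field acts with multiplicities
   at most three.) If `B` is ordinary and `Z` is the
   product of `B` and of supersingular abelian varieties (possibly none) then the condition is: the
   angle rank is `g'`, or the angle rank is `g' - 1` and `g' ≤ 6`.

For example let `B` be geometrically simple of dimension six with commutative endomorphism algebra and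
angle rank five, such that `B` is the reduction of an abelian variety of CM type on which an imaginary
quadratic field acts with multiplicities three and three. Or let `Z` be a product of geometrically
simple abelian varieties of dimensions `g_i ≤ 6` with commutative endomorphism algebras, pairwise not
isogenous over an algebraic closure, which are reductions of abelian varieties of CM type on which the
same `√-d` acts with multiplicities at most three, where `p` splits in `ℚ(√-d)`, such that the angle rank
is `1 + ∑ (g_i - 1)`.

There is no unproved hypothesis. That the abelian varieties, the homomorphisms and the classes in the
theorem are what the words say is due to Honda, Tate and Markman; the theorem itself is proved for the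
model. If the angle rank is `g'` then all Tate classes are generated by classes of degree two (Tate,
Zarhin). `MP_ee618e_ag.ElementaryRelations` has one direction for relations which are generated by relations
of restricted types (with bounds on the dimensions), and no converse. The theorem replaces our theorem for
ordinary abelian varieties (now `Pool.Agent.K4H21.Old.OrdinaryLattice`), which was deduced from the
corresponding theorem for Hodge classes (`MP_e12fcd_ag.LatticeCriterion`) by canonical lifts: it is now true for
all slopes, with supersingular and isotypic factors, and since there is no lift of all Tate classes to
Hodge classes, both directions have new proofs.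

The proof that the relations in `Gen Z` give classes in `Alg` uses the decomposition of the
generators into CM types over a large Galois CM field and the results of the earlier files on products
of CM types. In the other direction, a relation which is not in `Gen Z` is detected by a character of
finite order of the free abelian group on the eigenvalues which is trivial on `Gen Z`; the character
defines an operator on the homology of all abelian varieties over finite fields at the same time, since
the eigenvalues, up to roots of unity, are determined by the functions on the Galois group given by the
slopes; the operator fixes all Tate classes of degree two and all Weil classes on fourfolds and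
sixfolds (this is the point: the multiplicities at most three suffice), therefore all classes in `Alg`,
but it does not fix the Tate class which belongs to the relation.
-/

set_option autoImplicit false

namespace Pool.Agent.Results.MP_021685_ag.FiniteFieldLattice

open Pool.Agent.W495.TA (RedAV)
open Pool.Agent.TH117.BL (eig)
open Pool.Agent.K4H21.TF

/-- **The Tate conjecture for abelian varieties over finite fields: the exact reach of the theorems
of Tate and Markman.** -/
theorem result (p : ℕ) [Fact p.Prime] (ν : PadicAlgCl p ≃+* ℂ) (Z : RedAV p ν)
    (Ω : Type) [Field Ω] [IsAlgClosed Ω] [CharZero Ω] :
    -- the exact reach
    (AllTate Ω Z ↔ ∀ e, IsRelation Z e → e ∈ Gen Z) ∧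
    -- the numerical criterion
    (∀ (r : ℕ) (W : Fin r → QuadDatum Z),
      (∀ i k, i ≠ k → ∀ φ ψ, ¬ SameEig Z ((W i).θ φ) ((W k).θ ψ)) →
      numEig Z / 2 + ((fun i => (W i).d) '' {i | (W i).Unbalanced}).ncard ≤ angleRank Z + r →
      AllTate Ω Z) ∧
    -- geometrically simple abelian varieties
    (∀ i₀, IsotypicTimesSuper Z i₀ →
      (AllTate Ω Z ↔ 2 * angleRank Z = numEig Z ∨
        (2 * (angleRank Z + 1) = numEig Z ∧ ∃ W : QuadDatum Z, ¬ W.Unbalanced)) ∧
      -- ordinary and geometrically simple abelian varieties
      ((∀ φ φ', φ ≠ φ' → ¬ SameEig Z ⟨i₀, φ⟩ ⟨i₀, φ'⟩) →
        (∀ φ, ‖ν.symm (eig Z ⟨i₀, φ⟩)‖ = 1 ∨
          ‖ν.symm (eig Z ⟨i₀, φ⟩)‖ = ‖(p : PadicAlgCl p) ^ Z.a‖) →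
        (AllTate Ω Z ↔ 2 * angleRank Z = numEig Z ∨
          (2 * (angleRank Z + 1) = numEig Z ∧ numEig Z ≤ 12)))) :=
  ⟨crit Ω Z, num_all Ω Z, fun i₀ H => ⟨iso_crit (one_mainJ rk_main) quadI Ω Z i₀ H,
    ord_crit (one_mainJ rk_main) quadI Ω Z i₀ H⟩⟩

end Pool.Agent.Results.MP_021685_ag.FiniteFieldLattice
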