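import Mathlib
import Pool.Agent.K4H54.PT.Gen
import Pool.Agent.K4H54.UF.Main
import Pool.Agent.K4H75.UF.UF1
import Pool.Agent.K4H88.UF.UF2
import Pool.Agent.K4H36.UF.UF3
import Pool.Agent.K4H16.UF.UF4

/-!
# The majority law for Tate classes on the powers of a variety

Let `k` be a number field, a finite field or any other field, `ℓ` a prime different from its
characteristic, `E` the algebraic closure of the field of `ℓ`-adic numbers, and `X` a smooth projective
variety over `k` such that the `ℓ`-adic cohomology of `X` and of its powers is semisimple (abelian
varieties over finitely generated fields by Weil, Zarhin and Faltings, products of curves, K3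
surfaces, Fermat varieties over finite fields; in general this is a conjecture of Grothendieck and
Serre). How many of the Tate classes on the powers of `X` can fail to be algebraic? The space of all Tate
classes on `X ^ m` (of all codimensions, with coefficients in `E`) has dimension `tateDim X m`, the space
of the algebraic ones, the `E`-span of the classes of algebraic cycles over `k`, has dimension
`classDim X P m`. No conjecture on algebraic cycles is assumed.

1. **One counterexample spreads to a positive proportion.** If a Tate class on `X ^ n` is not algebraic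
   then for all `m ≥ n` the space of the algebraic classes on `X ^ m` has dimension at most
   `(1 - 1 / (2 * D ^ (n + 2))) * tateDim X m`, where `D` is the total Betti number of `X`.
2. **One majority suffices.** For all `b`, `n` and `ε > 0` there is a number `M` such that the Tate
   conjecture holds for `X ^ n`, in all codimensions, as soon as more than the proportion `1 / 2 + ε` of
   the Tate classes on **one** power `X ^ m`, `m ≥ M`, is algebraic. The number `M` depends only on `b`,
   `n` and `ε`, where `b` is a bound for the total Betti number of `X` (it does not depend on `X`, `k`, `ℓ`).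
3. **The majority law for all powers.** For each `X` and `ε > 0` there is a number `M` such that the Tate
   conjecture holds for **all** powers of `X`, in all codimensions, as soon as more than the proportion
   `1 / 2 + ε` of the Tate classes on **one** power `X ^ m`, `m ≥ M`, is algebraic.
4. **The majority law over all finite fields.** For all `b` and `ε > 0` there is a number `M` such that
   for **every** smooth projective variety `X` with semisimple Frobenius and total Betti number at most
   `b`, over **any** finite field, the Tate conjecture holds for **all** powers of `X`, in all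
   codimensions, as soon as more than the proportion `1 / 2 + ε` of the Tate classes on **one** power
   `X ^ m`, `m ≥ M`, is algebraic. In particular there is such a number `M` for all abelian varieties of
   dimension `g` over all finite fields.
5. **Uniform generation over all finite fields.** For all `b` there is a number `K` such that for every
   `X` as in 4 the Tate conjecture for all powers of `X` follows from the Tate conjecture for the powers
   `X ^ n`, `n ≤ K` (that is, for `X ^ K`).

So either the Tate conjecture holds for all powers of `X`, or the upper limit of the proportions of the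
algebraic classes is at most `1 / 2`. Parts 4 and 5 use Deligne's theorem (the eigenvalues of the
Frobenius are Weil numbers) and the slopes of the crystalline cohomology in the form of the condition
`IsOfFiniteType`, whose parameter is bounded by `2 * B * B!`, where `B` is the total Betti number.

The theorem is proved for every property `P` of the correspondences between the powers of `X` (the
linear maps `H(X ^ a) → H(X ^ c)`) in place of `algebraic`, which is preserved by linear combinations,
compositions and exterior products (`IsClosed`) and which holds for the following ones, which are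
algebraic for every `X`: the classes of the point, of the diagonal, of a closed point of `X`, the unit
class, the form of Poincaré duality (`Planar`), in parts 2 to 5 also the class of the diagonal in
`H(X × X)` and the graph of the symmetry of `X × X` (`Symmetric`). The constant `1 / 2` cannot be improved
in this generality, since there are groups with subgroups of index two.

`Cohomology` (the total cohomology with the operators `t ^ j * g` on `H ^ j`, where `g` is a Galois
automorphism and `t ^ 2` the value of the cyclotomic character at `g`, and the unit class),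
`IsTate` (fixed by the operators: a sum of Tate classes), `IsSemisimple`, `Cohomology.pow` (formula of
Künneth) and `IsCorrespondence` (the linear maps which commute with the operators, by Poincaré
duality the Tate classes on the product) are defined in `Pool.Agent.K4H35.TN.Defs`; `exterior`,
`IsClosed`, `Planar`, `IsPoincare`, `tateDim` and `classDim` in `Pool.Agent.K4H54.PT.Defs`;
`Symmetric` in `Pool.Agent.K4H54.PT.Sym`; `IsOfFiniteType` in `Pool.Agent.K4H54.PT.FFDefs`.
-/

namespace Pool.Agent.Results.MP_021685_ag.MajorityLaw

open Matrix Pool.Agent.K4H35.TN Pool.Agent.K4H54.PT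

/-- **The majority law for Tate classes on the powers of a variety.** -/
theorem result :
    -- 1. one counterexample spreads to a positive proportion
    (∀ (T E : Type) [Field E] (X : Cohomology T E), (∀ n, IsSemisimple (X.pow n)) →
      ∀ P : ∀ a c : ℕ, Matrix (X.pow c).ι (X.pow a).ι E → Prop, IsClosed X P →
      ∀ (q : Matrix X.ι X.ι E) (pt : X.ι → E), IsPoincare X q pt → Planar X P q pt →
      ∀ (n : ℕ) (F : Matrix (X.pow n).ι (X.pow 0).ι E), IsCorrespondence (X.pow 0) (X.pow n) F →
      ¬ P 0 n F → ∀ m, n ≤ m →
        (classDim X P m : ℝ) ≤ (1 - 1 / (2 * (Fintype.card X.ι : ℝ) ^ (n + 2))) * tateDim X m) ∧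
    -- 2. one majority suffices, with a uniform bound
    (∀ (b n : ℕ) (ε : ℝ), 0 < ε → ∃ M : ℕ, ∀ (T E : Type) [Field E] [CharZero E]
      (X : Cohomology T E), (∀ n, IsSemisimple (X.pow n)) → Fintype.card X.ι ≤ b →
      ∀ P : ∀ a c : ℕ, Matrix (X.pow c).ι (X.pow a).ι E → Prop, IsClosed X P →
      ∀ (q : Matrix X.ι X.ι E) (pt : X.ι → E) (d : X.ι → ℕ), IsPoincare X q pt →
      Planar X P q pt → Symmetric X P q d →
      ∀ m, M ≤ m → (1 / 2 + ε) * (tateDim X m : ℝ) < classDim X P m →
      ∀ F : Matrix (X.pow n).ι (X.pow 0).ι E, IsCorrespondence (X.pow 0) (X.pow n) F → P 0 n F) ∧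
    -- 3. the majority law for all powers
    (∀ (T E : Type) [Field E] [CharZero E] (X : Cohomology T E), (∀ n, IsSemisimple (X.pow n)) →
      ∀ (q : Matrix X.ι X.ι E) (pt : X.ι → E), IsPoincare X q pt →
      ∀ ε : ℝ, 0 < ε → ∃ M : ℕ,
      ∀ P : ∀ a c : ℕ, Matrix (X.pow c).ι (X.pow a).ι E → Prop, IsClosed X P →
      ∀ d : X.ι → ℕ, Planar X P q pt → Symmetric X P q d →
      ∀ m, M ≤ m → (1 / 2 + ε) * (tateDim X m : ℝ) < classDim X P m →
      ∀ (a c : ℕ) (F : Matrix (X.pow c).ι (X.pow a).ι E),
        IsCorrespondence (X.pow a) (X.pow c) F → P a c F) ∧
    -- 4. the majority law over all finite fields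
    (∀ (b : ℕ) (ε : ℝ), 0 < ε → ∃ M : ℕ, ∀ (T E : Type) [Field E] [CharZero E]
      (X : Cohomology T E), IsOfFiniteType b X →
      ∀ P : ∀ a c : ℕ, Matrix (X.pow c).ι (X.pow a).ι E → Prop, IsClosed X P →
      ∀ (q : Matrix X.ι X.ι E) (pt : X.ι → E) (d : X.ι → ℕ), IsPoincare X q pt →
      Planar X P q pt → Symmetric X P q d →
      ∀ m, M ≤ m → (1 / 2 + ε) * (tateDim X m : ℝ) < classDim X P m →
      ∀ (a c : ℕ) (F : Matrix (X.pow c).ι (X.pow a).ι E),
        IsCorrespondence (X.pow a) (X.pow c) F → P a c F) ∧
    -- 5. uniform generation over all finite fields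
    (∀ b : ℕ, ∃ K : ℕ, ∀ (T E : Type) [Field E] (X : Cohomology T E), IsOfFiniteType b X →
      ∀ P : ∀ a c : ℕ, Matrix (X.pow c).ι (X.pow a).ι E → Prop, IsClosed X P →
      ∀ (q : Matrix X.ι X.ι E) (pt : X.ι → E) (d : X.ι → ℕ), IsPoincare X q pt →
      Planar X P q pt → Symmetric X P q d →
      (∀ n ≤ K, ∀ F : Matrix (X.pow n).ι (X.pow 0).ι E,
        IsCorrespondence (X.pow 0) (X.pow n) F → P 0 n F) →
      ∀ (a c : ℕ) (F : Matrix (X.pow c).ι (X.pow a).ι E),
        IsCorrespondence (X.pow a) (X.pow c) F → P a c F) := by
  refine ⟨?_, ?_, ?_, ?_, ?_⟩
  · intro T E _ X hX P hP q pt hq hc n F hF hFP m hm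
    exact main X hX P hP q pt hq hc n F hF hFP m hm
  · intro b n ε hε
    choose M hM using fun D => half_tate D n ε hε
    refine ⟨(Finset.range (b + 1)).sup M, ?_⟩
    intro T E _ _ X hX hb P hP q pt d hq hc hs m hm hlt F hF
    by_contra hFP
    have h1 := hM _ T E X hX rfl P hP q pt d hq hc hs F hF hFP m
      ((Finset.le_sup (f := M) (Finset.mem_range.2 (by omega))).trans hm)
    linarith
  · intro T E _ _ X hX q pt hq ε hε
    exact law X hX q pt hq ε hε
  · intro b ε hε
    obtain ⟨M, hM⟩ := Pool.Agent.K4H54.UF.ff_law Pool.Agent.K4H75.UF.uf1 Pool.Agent.K4H88.UF.uf2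
      Pool.Agent.K4H36.UF.uf3 b ε hε
    refine ⟨M, fun T E _ _ X hX => hM T E X ?_ hX⟩
    obtain ⟨-, L, _, _, emb, ev, S, S', -, hS, hact, -⟩ := hX
    exact fun n => Pool.Agent.K4H16.UF.uf4 hS hact n
  · exact Pool.Agent.K4H54.UF.ff_family Pool.Agent.K4H75.UF.uf1 Pool.Agent.K4H88.UF.uf2
      Pool.Agent.K4H36.UF.uf3

end Pool.Agent.Results.MP_021685_ag.MajorityLaw
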