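import Mathlib
import Pool.Agent.K4H21.CT.TateMain

/-!
# The Tate conjecture for all products of powers of some simple ordinary abelian varieties with
arbitrary CM fields as endomorphism algebras

Let `E` be a CM field of degree `2 g`. Simple ordinary abelian varieties over finite fields of
characteristic `p` whose endomorphism algebra over the algebraic closure is `E` have dimension `g`.
By Honda and Tate, over the field with `q = p ^ n` elements they correspond (up to isogeny) to the
integers `π` of `E` with all complex absolute values `√q` such that every `p`-adic absolute value of
`π` is `1` or `1 / q` and all powers of `π` generate `E`. The Tate classes on the powers of such an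
abelian variety are not always generated by divisors; this depends on the places of `E` above `p` that
divide `π`. The theorem determines for which CM fields `E` it happens.

We call a CM field `E` exceptional if it is normal over `ℚ` and its Galois group is the dihedral
group of order `4` (the biquadratic CM fields) or the dihedral group of order `8`. If `E` is
exceptional, then no ordinary Weil number in `E` has all its powers generating `E`: `E` is not the
endomorphism algebra of a geometrically simple ordinary abelian variety, in any characteristic. If `E`
is not exceptional, then for every prime number `p` that splits completely in `E` some ordinary Weil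
number `π` in `E` is good: all Tate classes on all powers of the abelian variety, over all finite
extensions, are generated by divisors, and the Tate conjecture holds for all powers. So every CM field
that is the endomorphism algebra of some geometrically simple ordinary abelian variety is the
endomorphism algebra of one for which the Tate conjecture holds for all powers. The same is true for
finitely many CM fields that are pairwise independent, and all products of powers.

Moreover the good ordinary Weil numbers force the Tate conjecture in characteristic zero: let `A` be any
abelian variety over a number field such that at one place with `q = p ^ n` elements the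
characteristic polynomial of Frobenius is the product of the minimal polynomials of the `π i`. Then
all Tate classes on all powers of `A` are generated by Tate classes of degree two, which are
combinations of classes of divisors (Faltings). There is no assumption on the endomorphisms of `A`.

There is no condition on the Galois groups of the CM fields. Pairwise independence (`PairwiseIndep`)
is no condition for one field; for several fields it means that for `i ≠ k` and all complex embeddings
`φ` of `K i` and `ψ` of `K k` some automorphism of `ℂ` is the identity on `φ (K i)` and the complex
conjugation on `ψ (K k)`.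

The slopes of the good Weil numbers are given by a half system of the set of cosets `G / H` of the
Galois group `G` of the normal closure which has no linear relations except the obvious ones. It is
constructed by group theory. If `G` is not a 2-group, one takes a half system that is invariant on
both sides under suitable subgroups and changes one coset; a divisibility argument shows that there
is no relation. If `G` is a 2-group, one distinguishes whether the complex conjugation belongs to a
normal Klein four-group or not; in the second case `G` has a normal cyclic subgroup of index at most
two that contains it.
-/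

namespace Pool.Agent.Results.MP_021685_ag.OrdinaryEveryCMField

open NumberField Module Pool.Agent.H977R3.CM Pool.Agent.K4H22.ZeroOne Pool.Agent.H204R3.GP
  Pool.Agent.TH170.FT

/-- The CM field `E` is exceptional: it is normal over the rational numbers and its Galois group is
the dihedral group of order `4` (the Klein four-group) or the dihedral group of order `8`. -/
def IsExceptional (E : Type) [Field E] [NumberField E] : Prop :=
  IsGalois ℚ E ∧ (Nonempty ((E ≃ₐ[ℚ] E) ≃* DihedralGroup 2) ∨
    Nonempty ((E ≃ₐ[ℚ] E) ≃* DihedralGroup 4))

/-- The Weil `p ^ n`-number `x` is ordinary: all its `p`-adic absolute values are `1` or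
`1 / p ^ n`. -/
def IsOrdinary (p n : ℕ) [Fact p.Prime] {E : Type} [Field E] (x : E) : Prop :=
  ∀ τ : E →+* PadicAlgCl p, ‖τ x‖ = 1 ∨ ‖τ x‖ = ((p : ℝ) ^ n)⁻¹

/-- Every abelian variety over a number field for which some Frobenius element, at a place with
`p ^ n` elements, has as characteristic polynomial on the Tate modules `V` the product of the minimal
polynomials of the `π i` satisfies: all Tate classes on all its powers are generated by Tate classes of
degree two. -/
def ForcesTate (p n : ℕ) {I : Type} [Fintype I] {K : I → Type} [∀ i, Field (K i)]
    [∀ i, NumberField (K i)] (π : ∀ i, K i) : Prop :=
  ∀ (ℓ : ℕ) [Fact ℓ.Prime] (V Γ : Type) [AddCommGroup V] [Module ℚ_[ℓ] V]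
    [FiniteDimensional ℚ_[ℓ] V] [Group Γ] (ρ : Representation ℚ_[ℓ] Γ V) (χ : Γ →* ℚ_[ℓ])
    (ω : V →ₗ[ℚ_[ℓ]] V →ₗ[ℚ_[ℓ]] ℚ_[ℓ]), IsTateModule ρ χ ω → HasFrobenius ρ χ p n π →
    TateGeneratedInDegreeTwo ρ χ

/-- **For pairwise independent CM fields `K i` these are equivalent: no `K i` is exceptional; in some
characteristic `p` there are ordinary Weil numbers all powers of which generate the fields `K i`; for
every prime number `p` that splits completely in the `K i` there are ordinary Weil numbers `π i` in the
`K i` such that all Tate classes on all products of powers of the corresponding simple abelian
varieties over finite fields are generated by divisors, and which force the Tate conjecture for the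
powers of abelian varieties over number fields.** -/
theorem result {I : Type} [Fintype I] (K : I → Type) [∀ i, Field (K i)] [∀ i, NumberField (K i)]
    [∀ i, IsCMField (K i)] (hK : PairwiseIndep K) :
    List.TFAE [
      ∀ i, ¬ IsExceptional (K i),
      ∃ (p : ℕ) (_ : Fact p.Prime) (n : ℕ), 0 < n ∧ ∃ π ∈ Weil K p n,
        ∀ i, IsOrdinary p n (π i) ∧
          ∀ s : ℕ, 0 < s → IntermediateField.adjoin ℚ {π i ^ s} = ⊤,
      ∀ (p : ℕ) [Fact p.Prime], (∀ i, Splits p (K i)) → ∃ n : ℕ, 0 < n ∧ ∃ π ∈ Weil K p n,
        (∀ i, IsOrdinary p n (π i)) ∧ Good p n π ∧ ForcesTate p n π] := by
  tfae_have 1 → 3 := by
    intro h p _ hsplit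
    obtain ⟨n, hn, π, hW, hord, hG⟩ :=
      Pool.Agent.K4H21.CT.exists_good_ordinary (p := p) hK h hsplit
    exact ⟨n, hn, π, hW, hord, good_iff.2 hG, fun ℓ _ V Γ _ _ _ _ ρ χ ω hR hF =>
      Pool.Agent.K4H21.CT.forces_of_good hn hW hG hR hF⟩
  tfae_have 3 → 2 := by
    intro h
    obtain ⟨p, hp, -, hsplit⟩ := Pool.Agent.K4H21.CT.infinite_split K 0
    obtain ⟨n, hn, π, hW, hord, hG, -⟩ := @h p hp hsplit
    exact ⟨p, hp, n, hn, π, hW, fun i => ⟨hord i, hG.1 i⟩⟩
  tfae_have 2 → 1 := by
    rintro ⟨p, hp, n, hn, π, hW, h⟩ i hi
    obtain ⟨s, hs, hs'⟩ := Pool.Agent.K4H21.CT.not_generate_of_exc (K i) hi hn (hW i).1
      (hW i).2 (h i).1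
    exact hs' ((h i).2 s hs)
  tfae_finish

end Pool.Agent.Results.MP_021685_ag.OrdinaryEveryCMField
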