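import Pool.Agent.K4H33.CP.Final

/-!
# The Tate conjecture for products of varieties over finite fields and couplings of slopes

Let `X l`, `l ∈ κ`, be finitely many smooth projective varieties over the algebraic closure of a
finite field, for which the Tate conjecture holds in all codimensions and over all finite fields,
together with the semisimplicity of Frobenius on the Tate classes. Let `Z` be their product. The
varieties `X l` are pure (`IsPure`): the eigenvalues of Frobenius in degree `i` are Weil numbers of
weight `i`. This is a condition on the factors only; nothing of this kind is assumed for `Z` or for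
other varieties (it is proved for the products of the `X l` here).

**The coupling criterion.** Let `f l` be an irreducible factor over `ℚ` of the characteristic
polynomial of Frobenius on `H^(d l)(X l)`. The slopes of the `p`-adic roots of `f l` define a
probability distribution on the real line (each root has the same probability). A *coupling* is a
family of random variables `s l` with these distributions, such that the sum of the `s l` is
constant, equal to the half of the sum of the `d l`. The slopes are *independent* if all couplings
(for all choices of the factors, with even sum of the degrees) are trivial: `d l` is even and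
`s l = d l / 2`. If the slopes are independent, then

* the Tate conjecture holds for `Z` in all codimensions, with the semisimplicity of Frobenius, and
  the order of the pole of the zeta function at `j` is the rank of the cycles modulo numerical
  equivalence.

If the slopes of the `X l` and of a pure variety `U` are independent (only the `s l` have to be
trivial, not the random variable which belongs to `U`), then

* the Tate conjecture for `Z × U` is equivalent to the Tate conjecture for `U`. Nothing else is
  assumed on `U`.

No hypothesis is made on the number fields generated by the eigenvalues of Frobenius, on their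
Galois groups or on their intersections: only the slopes and their multiplicities are used.

**K3 surfaces.** Let the `X l` be K3 surfaces of height `h l` with Picard number `22 - t l` (the
supersingular ones have `t l = 0`), or cubic fourfolds, or other varieties of K3 type; the Tate
conjecture is known for them. Assume that the finite heights are pairwise different. Then the
strong Tate conjecture holds for the product `Z` in all codimensions, unless the pairs `(2, 4)`,
`(3, 6)`, `(6, 12)` all occur among the pairs `(h l, t l)` (that is, K3 surfaces of height 2, 3, 6
with Picard numbers 18, 16, 10; in general the pairs `(2, 2 a)`, `(3, 3 a)`, `(6, 6 a)`). If moreover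
no height is one, then the Tate conjecture for `Z × U` is equivalent to the Tate conjecture for
`U`, for **all** pure varieties `U` whose slopes in even degrees are integers, for instance for all
ordinary varieties `U`. If all finite heights are at least three, this is true for all `U` whose
slopes in even degrees are half-integers, for instance for products of curves of genus at most two
and of ordinary varieties, if no pairs `(3, a)` and `(6, 2 a)` occur together. For arbitrary
heights the strong Tate conjecture holds for `Z` if the inverse of each `t l ≠ 0` is greater than the
sum of the inverses of the `t l'` with `l' ≠ l` and `t l' ≥ t l` (for example Picard numbers 18, 14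
and 6).

**Powers.** Let `X l` have no cohomology in odd degrees and slopes in `j + (1 / h l) {-n l, …, n l}`
in degree `2 j` (for example the square of a K3 surface of height `h l`, `n l = 2`, for which the
Tate conjecture is known by Ito, Ito and Koshikawa). If `n l < h l` and the `h l` are pairwise
coprime, then the strong Tate conjecture holds for `Z`, and the Tate conjecture for `Z × U` is
equivalent to the Tate conjecture for `U`, for all `U` whose slopes in even degrees have
denominators prime to the `h l`.
-/

set_option autoImplicit false

open CategoryTheory AlgebraicGeometry

universe u v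

namespace Pool.Agent.Results.MP_021685_ag.SlopeCouplings

open Pool.Agent.H914 Pool.Agent.W534 Pool.Agent.R940 Pool.Agent.K4H33.CP VarClass Obj
  WeilCohomology

/-- **The Tate conjecture for products from couplings of slopes.** -/
theorem result {k : Type u} [Field k] {𝒱 : VarClass k} {ops : CycleOps 𝒱}
    (W : WeilCohomology.{u, v} ops) [IsAlgClosed W.K] (p : ℕ) [Fact p.Prime]
    (Φ : FrobSystem W p) (σ : W.K →+* ℂ) {κ : Type} [Fintype κ] [DecidableEq κ]
    (X : κ → 𝒱.Obj) (hP : ∀ l, IsPure Φ σ (X l)) (hT : ∀ l c, SemisimpleTateIn Φ (X l) c)
    (Z : 𝒱.Obj) (hZ : IsProductOnce X Finset.univ Z) :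
    -- the coupling criterion
    ((SlopesIndependent Φ σ X Set.univ → StrongTate Φ σ Z) ∧
      ∀ U, IsPure Φ σ U → SlopesIndependent Φ σ (withU X U) (Set.range some) →
        TateReduces Φ Z U) ∧
    -- varieties of K3 type
    (∀ h t : κ → ℕ, (∀ l, IsK3Type Φ σ (X l) (h l) (t l)) →
      (∀ l₂ l₃ l₆, h l₂ = 2 → h l₃ = 3 → h l₆ = 6 → t l₂ ≠ 0 → 3 * t l₂ = 2 * t l₃ →
        t l₆ = 3 * t l₂ → False) →
      (DifferentHeights 1 h t → StrongTate Φ σ Z) ∧
      (DifferentHeights 2 h t → ∀ U, IsPure Φ σ U → IsEvenDenominator Φ σ U 1 →
        TateReduces Φ Z U) ∧
      (DifferentHeights 3 h t →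
        (∀ l₃ l₆, h l₃ = 3 → h l₆ = 6 → t l₃ ≠ 0 → t l₆ = 2 * t l₃ → False) →
        ∀ U, IsPure Φ σ U → IsEvenDenominator Φ σ U 2 → TateReduces Φ Z U)) ∧
    (∀ h t : κ → ℕ, (∀ l, IsK3Type Φ σ (X l) (h l) (t l)) →
      (∀ l, t l ≠ 0 →
        ∑ l' ∈ Finset.univ.filter (fun l' => l' ≠ l ∧ t l ≤ t l'), (1 : ℚ) / t l' < 1 / t l) →
      StrongTate Φ σ Z) ∧
    -- powers
    (∀ h n : κ → ℕ, (∀ l, SlopesNear Φ σ (X l) (h l) (n l)) → (∀ l, n l < h l) →
      (∀ l l', l ≠ l' → Nat.Coprime (h l) (h l')) →
      StrongTate Φ σ Z ∧
      ∀ D : ℕ, (∀ l, Nat.Coprime (h l) D) → ∀ U, IsPure Φ σ U → IsEvenDenominator Φ σ U D →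
        TateReduces Φ Z U) := by
  have hprod : SlopesIndependent Φ σ X Set.univ → StrongTate Φ σ Z := fun hX =>
    product_main (fun l => (hP l).weight) (fun l => (hP l).integral) hX hT hZ
  have htimes : ∀ U, IsPure Φ σ U → SlopesIndependent Φ σ (withU X U) (Set.range some) →
      TateReduces Φ Z U :=
    fun U hPU hU => reduces hP hT hZ U hPU hU
  refine ⟨⟨hprod, htimes⟩, fun h t hX hex => ⟨fun hd => ?_, fun hd U hPU hU => ?_,
    fun hd hex' U hPU hU => ?_⟩, fun h t hX hs => ?_,
    fun h n hX hn hc => ⟨?_, fun D hD U hPU hU => ?_⟩⟩
  · exact hprod (independent_of_noZeroSum hX (noZeroSum_different (fun l => (hX l).pos) hd hex))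
  · exact htimes U hPU (independent_of_noIntegralSum hX
      (noIntegralSum_one (fun l => (hX l).pos) hd hex) hU)
  · exact htimes U hPU (independent_of_noIntegralSum hX
      (noIntegralSum_two (fun l => (hX l).pos) hd hex') hU)
  · exact hprod (independent_of_noZeroSum hX (noZeroSum_super (fun l => (hX l).pos) hs))
  · exact hprod (independent_of_near hX hn hc)
  · exact htimes U hPU (independent_of_near_withU hX hn hc hD hU)

end Pool.Agent.Results.MP_021685_ag.SlopeCouplings
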